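import Pool.Agent.Mg.F12a176.Ge2ae14

/- On a compact complex manifold of dimension `2n` with a hyper-Kaehler metric, the Chern number
`c_2^n` dominates every Chern number, with a constant that depends only on `n`. -/

set_option autoImplicit false

open scoped Manifold ContDiff
open Pool.Agent.MP_12a176_ag

namespace Pool.Agent.Results.MP_12a176_ag.C2Power

universe u

theorem result (n : ℕ) (hn : 0 < n) : ∃ C : ℝ, 0 < C ∧
    ∀ (M : Type u) [TopologicalSpace M] [T2Space M] [CompactSpace M]
      [ChartedSpace (Fin (2 * n) → ℂ) M] [IsManifold 𝓘(ℂ, Fin (2 * n) → ℂ) ω M]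
      (h σ : M → Matrix (Fin (2 * n)) (Fin (2 * n)) ℂ), IsHKMetric h σ →
      ∀ ρ : PartitionOfUnity M M Set.univ,
        ρ.IsSubordinate (fun p => (chartAt (Fin (2 * n) → ℂ) p).source) →
        ∀ μ : (2 * n).Partition, |charNumber h ρ (μ.parts.map (chernPoly (2 * n))).prod| ≤
          C * charNumber h ρ (chernPoly (2 * n) 2 ^ n) := by
  choose C h0 hC using fun μ : (2 * n).Partition =>
    point_bound hn (prod_inv μ.parts) (by simpa [μ.parts_sum] using prod_homog μ.parts)
  refine ⟨∑ μ, C μ, Finset.sum_pos (fun μ _ => h0 μ) Finset.univ_nonempty,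
    fun M _ _ _ _ _ h σ g ρ hρ μ => ?_⟩
  have := global_bound ((chern_homog 2).pow n) (hC μ) g ρ hρ
  exact this.trans (mul_le_mul_of_nonneg_right (Finset.single_le_sum (fun μ _ => (h0 μ).le)
    (Finset.mem_univ μ)) (nonneg_of_mul_nonneg_right ((abs_nonneg _).trans this) (h0 μ)))

end Pool.Agent.Results.MP_12a176_ag.C2Power
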