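import Pool.Agent.MP_12a176_ag.HC.MA
import Pool.Agent.MP_12a176_ag.HC.MB

/- Explicit linear inequalities between the Chern numbers of a compact complex manifold of
dimension `2n` with a hyper-Kaehler metric, one for each real vector of length `n`. -/

set_option autoImplicit false

open scoped Manifold ContDiff
open Pool.Agent.MP_12a176_ag

namespace Pool.Agent.Results.MP_12a176_ag.Cone

universe u

open HC in
theorem result (n : ℕ) : ∃ a : n.Partition → (Fin n → ℝ) → ℝ, (∀ μ, Continuous (a μ)) ∧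
    (∀ ξ y : Fin n → ℝ, (Matrix.of fun i j : Fin n => ξ i ^ (2 * j.1 + 1)).det *
      (Matrix.of fun i j : Fin n => y i ^ (2 * j.1 + 1)).det *
      ∑ μ, a μ ξ * (μ.parts.map fun k => (Finset.univ.val.map fun i => y i ^ 2).esymm k).prod =
      ∑ s : Equiv.Perm (Fin n), ∑ ε : Fin n → ℤˣ,
        (((Equiv.Perm.sign s * ∏ k, ε k : ℤˣ) : ℤ) : ℝ) *
          (∑ k, ((ε k : ℤ) : ℝ) * ξ (s k) * y k) ^ (n ^ 2 + 2 * n)) ∧
    ∀ (M : Type u) [TopologicalSpace M] [T2Space M] [CompactSpace M]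
      [ChartedSpace (Fin (2 * n) → ℂ) M] [IsManifold 𝓘(ℂ, Fin (2 * n) → ℂ) ω M]
      (h σ : M → Matrix (Fin (2 * n)) (Fin (2 * n)) ℂ), IsHKMetric h σ →
      ∀ ρ : PartitionOfUnity M M Set.univ,
        ρ.IsSubordinate (fun p => (chartAt (Fin (2 * n) → ℂ) p).source) →
        ∀ ξ : Fin n → ℝ, 0 ≤ ∑ μ, a μ ξ *
          charNumber h ρ (μ.parts.map fun k => chernPoly (2 * n) (2 * k)).prod :=
  s_fin (s_haar n) (s_coef (s_span n) (s_weyl (s_del n)))
    (s_hc (s_eig (s_inf (s_diag (s_spec n))) (s_int s_ad (s_adm n) (s_io n)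
      (s_rad (s_root n) (s_cof n) (s_del n)))) (s_weyl (s_del n)) (s_supp n) (s_alt n) (s_lin n)
      (s_del n) (s_sing n))
    (s_chern n) (s_diag (s_spec n)) (s_ring n) (s_point (s_frame (s_spec n))) (s_glob n)

end Pool.Agent.Results.MP_12a176_ag.Cone
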