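import Pool.Agent.Mg.F12a176.Gf3bce1

/- On a compact complex manifold of dimension `2n` with a hyper-Kaehler metric, the Todd genus
dominates every Chern number, with a constant that depends only on `n`. -/

set_option autoImplicit false

open scoped Manifold ContDiff
open Pool.Agent.MP_12a176_ag

namespace Pool.Agent.Results.MP_12a176_ag.ToddBound

universe u

theorem result (n : ℕ) : ∃ C : ℝ, 0 < C ∧
    ∀ (M : Type u) [TopologicalSpace M] [T2Space M] [CompactSpace M]
      [ChartedSpace (Fin (2 * n) → ℂ) M] [IsManifold 𝓘(ℂ, Fin (2 * n) → ℂ) ω M]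
      (h σ : M → Matrix (Fin (2 * n)) (Fin (2 * n)) ℂ), IsHKMetric h σ →
      ∀ ρ : PartitionOfUnity M M Set.univ,
        ρ.IsSubordinate (fun p => (chartAt (Fin (2 * n) → ℂ) p).source) →
        ∀ μ : (2 * n).Partition, |charNumber h ρ (μ.parts.map (chernPoly (2 * n))).prod| ≤
          C * charNumber h ρ (toddPoly (2 * n)) := by
  choose C h0 hC using fun μ : (2 * n).Partition =>
    todd_dom (prod_inv μ.parts) (by simpa [μ.parts_sum] using prod_homog μ.parts)
  obtain ⟨D, h1, hD⟩ := todd_dom (n := n) todd_inv todd_homog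
  have h2 : 0 ≤ ∑ μ, C μ := Finset.sum_nonneg fun μ _ => h0 μ
  refine ⟨∑ μ, C μ + 1, by linarith, fun M _ _ _ _ _ h σ g ρ hρ μ => ?_⟩
  have h3 := global_bound todd_homog hD g ρ hρ
  refine (global_bound todd_homog (hC μ) g ρ hρ).trans (mul_le_mul_of_nonneg_right
    ((Finset.single_le_sum (fun μ _ => h0 μ) (Finset.mem_univ μ)).trans (by linarith)) ?_)
  by_contra h4
  have := abs_pos.2 (not_le.1 h4).ne
  nlinarith

end Pool.Agent.Results.MP_12a176_ag.ToddBound
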